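import Pool.Agent.H13.DEV.Targets

/-!
PMU: multiplication by `P`; ODF: an odd degree factor (board n6, block E).
-/

set_option autoImplicit false

open Polynomial NumberField IsDedekindDomain Pool.Agent.H32.QC Pool.Agent.H34.N6
  Pool.Agent.H13.DEV

namespace Pool.Agent.H41.N6E

section

variable {k : Type} [Field k] [NumberField k] (v : Pl k)

theorem av_nonneg (x : k) : 0 ≤ av v x := by
  rcases v with v | φ
  · exact norm_nonneg _
  · exact abs_nonneg _

theorem av_zero : av v (0 : k) = 0 := by
  rcases v with v | φ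
  · show ‖ic v 0‖ = 0
    rw [map_zero, norm_zero]
  · show |φ 0| = 0
    rw [map_zero, abs_zero]

theorem av_add (x y : k) : av v (x + y) ≤ av v x + av v y := by
  rcases v with v | φ
  · show ‖ic v (x + y)‖ ≤ ‖ic v x‖ + ‖ic v y‖
    rw [map_add]
    exact norm_add_le _ _
  · show |φ (x + y)| ≤ |φ x| + |φ y|
    rw [map_add]
    exact abs_add_le _ _

theorem av_mul (x y : k) : av v (x * y) = av v x * av v y := by
  rcases v with v | φ
  · show ‖ic v (x * y)‖ = ‖ic v x‖ * ‖ic v y‖
    rw [map_mul, norm_mul]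
  · show |φ (x * y)| = |φ x| * |φ y|
    rw [map_mul, abs_mul]

theorem av_sum (s : Finset ℕ) (f : ℕ → k) : av v (∑ a ∈ s, f a) ≤ ∑ a ∈ s, av v (f a) := by
  classical
  induction s using Finset.induction_on with
  | empty =>
    rw [Finset.sum_empty, Finset.sum_empty, av_zero]
  | insert a s ha ih =>
    rw [Finset.sum_insert ha, Finset.sum_insert ha]
    exact (av_add v _ _).trans (add_le_add le_rfl ih)

end

theorem pf_PMU : T_PMU := by
  intro k _ _ v P n ε hε
  obtain ⟨A, hA⟩ : ∃ A, A = ∑ a ∈ Finset.range (P.natDegree + 1), av v (P.coeff a) := ⟨_, rfl⟩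
  have hA0 : 0 ≤ A := by
    rw [hA]
    exact Finset.sum_nonneg fun a _ => av_nonneg v _
  refine ⟨ε / (1 + A), by positivity, fun Q _ hQ i => ?_⟩
  have hQ' : ∀ j, av v (Q.coeff j) ≤ ε / (1 + A) := fun j => by
    have := hQ j
    rw [sub_zero] at this
    exact this.le
  rw [sub_zero]
  have e1 : (P * Q).coeff i = ∑ a ∈ Finset.range (P.natDegree + 1),
      P.coeff a * (if a ≤ i then Q.coeff (i - a) else 0) := by
    conv_lhs => rw [P.as_sum_range_C_mul_X_pow]
    rw [Finset.sum_mul, finset_sum_coeff]
    refine Finset.sum_congr rfl fun a _ => ?_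
    rw [mul_assoc, coeff_C_mul, coeff_X_pow_mul']
  rw [e1]
  calc av v (∑ a ∈ Finset.range (P.natDegree + 1),
      P.coeff a * (if a ≤ i then Q.coeff (i - a) else 0)) ≤
      ∑ a ∈ Finset.range (P.natDegree + 1), av v (P.coeff a) * (ε / (1 + A)) := by
        refine (av_sum v _ _).trans (Finset.sum_le_sum fun a _ => ?_)
        rw [av_mul]
        refine mul_le_mul_of_nonneg_left ?_ (av_nonneg v _)
        split_ifs
        · exact hQ' _
        · rw [av_zero]
          positivity
    _ = A * (ε / (1 + A)) := by rw [← Finset.sum_mul, ← hA]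
    _ < ε := by
        rw [mul_div_assoc', div_lt_iff₀ (by positivity)]
        nlinarith

/-- a monic polynomial of odd degree has a monic irreducible factor of odd degree -/
theorem odd_factor {k : Type} [Field k] : ∀ (n : ℕ) (G : k[X]), G.natDegree = n → G.Monic →
    Odd n → ∃ P : k[X], P.Monic ∧ Irreducible P ∧ Odd P.natDegree ∧ P ∣ G := by
  intro n
  induction n using Nat.strong_induction_on with
  | _ n ih =>
    intro G hn hG hodd
    have hu : ¬ IsUnit G := by
      intro h
      have h1 := natDegree_eq_zero_of_isUnit h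
      rw [hn] at h1
      rw [h1] at hodd
      exact absurd hodd (by decide)
    obtain ⟨P, hP, hirr, hdvd⟩ := exists_monic_irreducible_factor G hu
    by_cases h : Odd P.natDegree
    · exact ⟨P, hP, hirr, h, hdvd⟩
    · obtain ⟨Q, rfl⟩ := hdvd
      have hQ : Q.Monic := hP.of_mul_monic_left hG
      have h1 : (P * Q).natDegree = P.natDegree + Q.natDegree := hP.natDegree_mul hQ
      have h2 : 0 < P.natDegree := hirr.natDegree_pos
      rw [Nat.not_odd_iff_even] at h
      have h3 : Odd Q.natDegree := by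
        rw [h1] at hn
        rw [← hn] at hodd
        rcases Nat.even_or_odd Q.natDegree with h4 | h4
        · exact absurd (h.add h4) (Nat.not_even_iff_odd.2 hodd)
        · exact h4
      obtain ⟨P', hP', hi', ho', hd'⟩ := ih Q.natDegree (by omega) Q rfl hQ h3
      exact ⟨P', hP', hi', ho', hd'.mul_left P⟩

theorem pf_ODF (hEXA : T_EXA) : T_ODF := by
  intro k _ _ G hG hodd
  obtain ⟨P, hP, hirr, ho, hd⟩ := odd_factor G.natDegree G rfl hG hodd
  obtain ⟨L, hL, hN, hA, e, hgen, hfin⟩ := hEXA k P hP hirr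
  refine ⟨L, hL, hN, hA, e, ?_, ?_, ?_⟩
  · rw [hfin]
    exact ho
  · exact hgen.1
  · obtain ⟨Q, rfl⟩ := hd
    have : aeval e P = 0 := by
      rw [← hgen.2]
      exact minpoly.aeval k e
    rw [map_mul, this, zero_mul]

end Pool.Agent.H41.N6E
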